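import Mathlib
import Pool.Agent.H479R3.WijGame

set_option autoImplicit false

universe u

namespace Pool.Agent.Results.MP_491d6e_gt.WijsmanStronglyFavorable

open Pool.Agent.H479R3.Wij Pool.Agent.H479R3.WijGame

/-- Affirmative answer to Q2 (hence to Q1). Let `(X, d)` be a metric space whose topology is
completely metrizable, that is, let `X` be a completely metrizable space and let `d` be any
compatible metric on `X` (`d` itself need not be complete, `X` need not be locally separable). Then
the Wijsman hyperspace of `(X, d)` is strongly `α`-favorable: player `α` has a winning tactic in
the strong Choquet game on it. -/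
theorem result (X : Type u) [MetricSpace X] [TopologicalSpace.IsCompletelyMetrizableSpace X] :
    StronglyAlphaFavorable (Hyp X) :=
  Pool.Agent.H479R3.WijGame.main X

end Pool.Agent.Results.MP_491d6e_gt.WijsmanStronglyFavorable
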